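import Pool.Agent.W951.BP.Stm
import Pool.Agent.H820R3.AC.T2a
import Pool.Agent.H820R3.AC.T2b

/-! Smolensky's bound for the agreement of polynomials with majority. -/

namespace Pool.Agent.W515.BP

open H746R3.Inv Finset Pool.Agent.H820R3.AC Pool.Agent.W951.BP

lemma ball_le (j D : ℕ) : ball (2 * j + 1) (D + j) ≤ 2 ^ (2 * j) + D * (2 * j + 1).choose j := by
  unfold ball
  have h1 : range (D + j + 1) = range ((j + 1) + D) := by congr 1; omega
  rw [h1, sum_range_add, Nat.sum_range_choose_halfway, pow_mul]
  have h2 : ∑ i ∈ range D, (2 * j + 1).choose (j + 1 + i) ≤ ∑ _i ∈ range D, (2 * j + 1).choose j := by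
    refine sum_le_sum fun i _ => ?_
    have h3 := Nat.choose_le_middle (j + 1 + i) (2 * j + 1)
    have h4 : (2 * j + 1) / 2 = j := by omega
    rwa [h4] at h3
  rw [sum_const, card_range, smul_eq_mul] at h2
  norm_num
  exact h2

theorem finrank_LD {K : Type} [Field K] {V : Type} [Fintype V] [DecidableEq V] (d : ℕ) :
    Module.finrank K (LD K V d) ≤ ball (Fintype.card V) d := by
  classical
  have h1 : LD K V d = Submodule.span K
      (((univ.filter fun B : Finset V => B.card ≤ d).image (fun B => (mono B : (V → Bool) → K)) :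
        Finset ((V → Bool) → K)) : Set ((V → Bool) → K)) := by
    unfold LD
    congr 1
    ext f
    simp only [Set.mem_ofPred_eq, coe_image, coe_filter, mem_univ, true_and, Set.mem_image]
    constructor
    · rintro ⟨B, hB, rfl⟩
      exact ⟨B, hB, rfl⟩
    · rintro ⟨B, hB, rfl⟩
      exact ⟨B, hB, rfl⟩
  rw [h1, ← card_ball (V := V) d]
  exact (finrank_span_finset_le_card _).trans card_image_le

theorem interp {K : Type} [Field K] (j D : ℕ) (Q : (Fin (2 * j + 1) → Bool) → K)
    (hQ : Q ∈ LD K (Fin (2 * j + 1)) D) (g : (Fin (2 * j + 1) → Bool) → K) :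
    ∃ P ∈ LD K (Fin (2 * j + 1)) (D + j), ∀ u, Q u = bK (maj u) → P u = g u := by
  classical
  obtain ⟨P0, hP0, h0⟩ := T2a (fun _ : Fin (2 * j + 1) => false) j g
  obtain ⟨P1, hP1, h1⟩ := T2a (fun _ : Fin (2 * j + 1) => true) j g
  refine ⟨Q * P1 + (1 - Q) * P0, Submodule.add_mem _ (mul_mem hQ hP1)
    (mul_mem (Submodule.sub_mem _ (one_mem D) hQ) hP0), fun u hu => ?_⟩
  have hw : wt u = (univ.filter fun i => u i = true).card := by
    unfold wt
    exact congrArg Finset.card (Finset.filter_congr_decidable _ _ _)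
  have hsum : (univ.filter fun i => u i = true).card + (univ.filter fun i => ¬ u i = true).card =
      2 * j + 1 := by
    rw [card_filter_add_card_filter_not, card_univ, Fintype.card_fin]
  simp only [Pi.add_apply, Pi.mul_apply, Pi.sub_apply, Pi.one_apply, hu]
  by_cases hm : 2 * j + 1 < 2 * wt u
  · have h2 : maj u = true := by
      unfold maj
      simpa using hm
    rw [h2, bK_true, one_mul, sub_self, zero_mul, add_zero]
    refine h1 u ?_
    have h3 : (univ.filter fun i => u i ≠ true) = (univ.filter fun i => ¬ u i = true) := rfl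
    rw [h3]
    omega
  · have h2 : maj u = false := by
      unfold maj
      simpa using hm
    rw [h2, bK_false, zero_mul, zero_add, sub_zero, one_mul]
    refine h0 u ?_
    have h3 : (univ.filter fun i => u i ≠ false) = (univ.filter fun i => u i = true) := by
      ext i
      simp
    rw [h3]
    omega

theorem t_SMO : Pool.Agent.W951.BP.S_SMO := by
  intro K _ j D Q hQ
  classical
  set G : Finset (Fin (2 * j + 1) → Bool) := univ.filter fun u => Q u = bK (maj u) with hG
  let Res : ((Fin (2 * j + 1) → Bool) → K) →ₗ[K] (G → K) :=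
    LinearMap.funLeft K K (fun s : G => (s : Fin (2 * j + 1) → Bool))
  have hsurj : Function.Surjective (Res.domRestrict (LD K (Fin (2 * j + 1)) (D + j))) := by
    intro φ
    obtain ⟨P, hP, hPg⟩ := interp j D Q hQ (fun u => if h : u ∈ G then φ ⟨u, h⟩ else 0)
    refine ⟨⟨P, hP⟩, ?_⟩
    funext s
    have h1 : (Res.domRestrict (LD K (Fin (2 * j + 1)) (D + j)) ⟨P, hP⟩) s = P s := rfl
    rw [h1, hPg s (mem_filter.mp s.2).2, dif_pos s.2]
  have h1 := LinearMap.finrank_le_finrank_of_surjective hsurj
  rw [Module.finrank_fintype_fun_eq_card, Fintype.card_coe] at h1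
  have h2 := h1.trans (finrank_LD (K := K) (V := Fin (2 * j + 1)) (D + j))
  rw [Fintype.card_fin] at h2
  have h3 := h2.trans (ball_le j D)
  refine le_trans (le_of_eq ?_) h3
  exact congrArg Finset.card (Finset.filter_congr_decidable _ _ _)

end Pool.Agent.W515.BP
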